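import Mathlib

/-!
Rank versus symmetric rank of order three tensors over fields of characteristic two.
-/

namespace Pool.Agent.R678.SR

/-- the symmetric 3x3x3 tensor with entry 1 at pairwise distinct indices -/
def S (F : Type*) [Field F] : Fin 3 → Fin 3 → Fin 3 → F :=
  fun i j k => if i ≠ j ∧ j ≠ k ∧ i ≠ k then 1 else 0

/-- integer vectors of the decomposition of length five -/
def va : Fin 5 → Fin 3 → ℤ := ![![1,0,0], ![0,1,0], ![0,0,1], ![1,0,1], ![0,1,1]]
def vb : Fin 5 → Fin 3 → ℤ := ![![0,1,0], ![1,0,0], ![1,1,1], ![0,1,1], ![1,0,1]]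
def vc : Fin 5 → Fin 3 → ℤ := ![![0,1,1], ![1,0,1], ![1,1,0], ![0,1,0], ![1,0,0]]

def Sz : Fin 3 → Fin 3 → Fin 3 → ℤ :=
  fun i j k => if i ≠ j ∧ j ≠ k ∧ i ≠ k then 1 else 0

theorem key_int : ∀ i j k : Fin 3,
    (2 : ℤ) ∣ (∑ s : Fin 5, va s i * vb s j * vc s k) - Sz i j k := by
  decide

theorem S_decomp (F : Type*) [Field F] [CharP F 2] : ∀ i j k : Fin 3,
    S F i j k = ∑ s : Fin 5, (va s i : F) * (vb s j : F) * (vc s k : F) := by
  intro i j k
  obtain ⟨m, hm⟩ := key_int i j k
  have h1 : ((∑ s : Fin 5, va s i * vb s j * vc s k) - Sz i j k : ℤ) = 2 * m := hm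
  have h2 := congrArg (Int.cast : ℤ → F) h1
  push_cast at h2
  have h3 : (2 : F) = 0 := CharP.cast_eq_zero F 2
  rw [h3, zero_mul, sub_eq_zero] at h2
  rw [h2]
  unfold S Sz
  split_ifs <;> simp

/-- a homogeneous linear system with more unknowns than equations has a nonzero solution -/
theorem exists_quadric {F : Type*} [Field F] {r : ℕ} (hr : r ≤ 5) (v : Fin r → Fin 3 → F) :
    ∃ q : Fin 6 → F, q ≠ 0 ∧ ∀ s, q 0 * (v s 0)^2 + q 1 * (v s 1)^2 + q 2 * (v s 2)^2
      + q 3 * (v s 1 * v s 2) + q 4 * (v s 0 * v s 2) + q 5 * (v s 0 * v s 1) = 0 := by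
  let f : (Fin 6 → F) →ₗ[F] (Fin r → F) :=
    { toFun := fun q s => q 0 * (v s 0)^2 + q 1 * (v s 1)^2 + q 2 * (v s 2)^2
        + q 3 * (v s 1 * v s 2) + q 4 * (v s 0 * v s 2) + q 5 * (v s 0 * v s 1)
      map_add' := by intro x y; funext s; simp only [Pi.add_apply]; ring
      map_smul' := by
        intro c x; funext s; simp only [Pi.smul_apply, smul_eq_mul, RingHom.id_apply]; ring }
  have h : LinearMap.ker f ≠ ⊥ := by
    apply LinearMap.ker_ne_bot_of_finrank_lt
    simp only [Module.finrank_fintype_fun_eq_card, Fintype.card_fin]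
    omega
  obtain ⟨q, hq, hq0⟩ := (Submodule.ne_bot_iff _).1 h
  exact ⟨q, hq0, fun s => congrFun (LinearMap.mem_ker.1 hq) s⟩

theorem no_decomp {F : Type*} [Field F] [CharP F 2] {r : ℕ} (hr : r ≤ 5)
    (l : Fin r → F) (v : Fin r → Fin 3 → F)
    (h : ∀ i j k, S F i j k = ∑ s, l s * (v s i * v s j * v s k)) : False := by
  obtain ⟨q, hq0, hq⟩ := exists_quadric hr v
  have hc : ∀ c : Fin 3, q 0 * S F 0 0 c + q 1 * S F 1 1 c + q 2 * S F 2 2 c
      + q 3 * S F 1 2 c + q 4 * S F 0 2 c + q 5 * S F 0 1 c = 0 := by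
    intro c
    simp only [h, Finset.mul_sum, ← Finset.sum_add_distrib]
    apply Finset.sum_eq_zero
    intro s _
    linear_combination (l s * v s c) * hq s
  have h3 : q 3 = 0 := by
    have := hc 0
    simpa [S] using this
  have h4 : q 4 = 0 := by
    have := hc 1
    simpa [S] using this
  have h5 : q 5 = 0 := by
    have := hc 2
    simpa [S] using this
  have hsq : ∀ x y : F, (x + y)^2 = x^2 + y^2 := fun x y => CharTwo.add_sq x y
  let H : Submodule F (Fin 3 → F) :=
    { carrier := {x | q 0 * (x 0)^2 + q 1 * (x 1)^2 + q 2 * (x 2)^2 = 0}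
      add_mem' := by
        intro x y hx hy
        simp only [Set.mem_ofPred_eq, Pi.add_apply, hsq] at *
        linear_combination hx + hy
      zero_mem' := by simp
      smul_mem' := by
        intro c x hx
        simp only [Set.mem_ofPred_eq, Pi.smul_apply, smul_eq_mul] at *
        linear_combination c^2 * hx }
  have hv : ∀ s, v s ∈ H := by
    intro s
    show q 0 * (v s 0)^2 + q 1 * (v s 1)^2 + q 2 * (v s 2)^2 = 0
    have := hq s
    rw [h3, h4, h5] at this
    linear_combination this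
  have hH : H < ⊤ := by
    rw [lt_top_iff_ne_top]
    intro hT
    apply hq0
    have hmem : ∀ x : Fin 3 → F, q 0 * (x 0)^2 + q 1 * (x 1)^2 + q 2 * (x 2)^2 = 0 := by
      intro x
      have : x ∈ H := by rw [hT]; trivial
      exact this
    have e0 := hmem ![1,0,0]
    have e1 := hmem ![0,1,0]
    have e2 := hmem ![0,0,1]
    simp at e0 e1 e2
    funext i
    fin_cases i <;> simp [e0, e1, e2, h3, h4, h5]
  obtain ⟨f, hf0, hf⟩ := Submodule.exists_le_ker_of_lt_top H hH
  -- coordinates of the functional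
  have hfx : ∀ x : Fin 3 → F, f x = x 0 * f (Pi.single 0 1) + x 1 * f (Pi.single 1 1)
      + x 2 * f (Pi.single 2 1) := by
    intro x
    have hx : x = x 0 • (Pi.single 0 1 : Fin 3 → F) + x 1 • (Pi.single 1 1 : Fin 3 → F)
        + x 2 • (Pi.single 2 1 : Fin 3 → F) := by
      funext i
      fin_cases i <;> simp
    conv_lhs => rw [hx]
    simp only [map_add, map_smul, smul_eq_mul]
  have hcc : ∀ b c : Fin 3, f (Pi.single 0 1) * S F 0 b c + f (Pi.single 1 1) * S F 1 b c
      + f (Pi.single 2 1) * S F 2 b c = 0 := by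
    intro b c
    simp only [h, Finset.mul_sum, ← Finset.sum_add_distrib]
    apply Finset.sum_eq_zero
    intro s _
    have h0 : f (v s) = 0 := LinearMap.mem_ker.1 (hf (hv s))
    rw [hfx] at h0
    linear_combination (l s * v s b * v s c) * h0
  have f0 : f (Pi.single 0 1) = 0 := by simpa [S] using hcc 1 2
  have f1 : f (Pi.single 1 1) = 0 := by simpa [S] using hcc 0 2
  have f2 : f (Pi.single 2 1) = 0 := by simpa [S] using hcc 0 1
  apply hf0
  apply LinearMap.ext
  intro x
  rw [hfx]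
  simp [f0, f1, f2]

end Pool.Agent.R678.SR
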