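import Mathlib

/-!
Rank versus symmetric rank of order three tensors over the field with three elements.
-/

namespace Pool.Agent.R678.SR

/-- the symmetric 2x2x2 tensor over a field with three elements:
sum of the cubes of representatives of the four points of the projective line -/
def T3 (F : Type*) [Field F] : Fin 2 → Fin 2 → Fin 2 → F :=
  fun i j k => if i = 1 ∧ j = 1 ∧ k = 1 then 1 else
    if (i = 0 ∧ j = 1 ∧ k = 1) ∨ (i = 1 ∧ j = 0 ∧ k = 1) ∨ (i = 1 ∧ j = 1 ∧ k = 0) then 2 else 0

def ta : Fin 3 → Fin 2 → ℤ := ![![0,1], ![1,0], ![0,1]]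
def tb : Fin 3 → Fin 2 → ℤ := ![![0,1], ![0,1], ![1,0]]
def tc : Fin 3 → Fin 2 → ℤ := ![![2,1], ![0,2], ![0,2]]

theorem T3_decomp (F : Type*) [Field F] : ∀ i j k : Fin 2,
    T3 F i j k = ∑ s : Fin 3, (ta s i : F) * (tb s j : F) * (tc s k : F) := by
  intro i j k
  fin_cases i <;> fin_cases j <;> fin_cases k <;>
    simp [T3, ta, tb, tc, Fin.sum_univ_succ]

/-- four linear functionals of a symmetric 2x2x2 tensor -/
def psi {F : Type*} [Field F] (T : Fin 2 → Fin 2 → Fin 2 → F) : Fin 4 → F :=
  ![T 0 0 0 - T 0 1 1, T 1 1 1 - T 0 0 1, - T 0 0 1 - T 0 1 1, T 0 0 1 - T 0 1 1]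

theorem no_decomp3 {F : Type*} [Field F] (hF : Nat.card F = 3) {r : ℕ}
    (l : Fin r → F) (v : Fin r → Fin 2 → F)
    (h : ∀ i j k, T3 F i j k = ∑ s, l s * (v s i * v s j * v s k)) : 4 ≤ r := by
  have : Finite F := Nat.finite_of_card_ne_zero (by omega)
  have : Fintype F := Fintype.ofFinite F
  have hc : Fintype.card F = 3 := by rw [← Nat.card_eq_fintype_card]; exact hF
  have h3 : (3 : F) = 0 := by
    have := FiniteField.cast_card_eq_zero F
    rw [hc] at this
    exact_mod_cast this
  have hx : ∀ x : F, x ^ 3 = x := by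
    intro x
    have := FiniteField.pow_card x
    rwa [hc] at this
  -- the functionals of the cube of a vector
  let c : Fin r → Fin 4 → F := fun s => psi (fun i j k => v s i * v s j * v s k)
  have hsum : ∀ i, psi (T3 F) i = ∑ s, l s * c s i := by
    intro i
    have e1 : ∀ i j k, T3 F i j k = ∑ s, l s * (v s i * v s j * v s k) := h
    fin_cases i <;>
      simp only [psi, c, e1, Matrix.cons_val_zero, Matrix.cons_val_one, Fin.zero_eta, Fin.mk_one,
        Fin.reduceFinMk, Matrix.cons_val] <;>
      simp only [← Finset.sum_sub_distrib, ← Finset.sum_neg_distrib] <;>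
      refine Finset.sum_congr rfl (fun s _ => ?_) <;> ring
  have hne : ∀ i, psi (T3 F) i ≠ 0 := by
    have h1 : (1 : F) ≠ 0 := one_ne_zero
    have h2 : (-2 : F) = 1 := by linear_combination (-1 : F) * h3
    intro i
    fin_cases i
    · show (T3 F 0 0 0 - T3 F 0 1 1 : F) ≠ 0
      have : (T3 F 0 0 0 - T3 F 0 1 1 : F) = -2 := by simp [T3]
      rw [this, h2]; exact h1
    · show (T3 F 1 1 1 - T3 F 0 0 1 : F) ≠ 0
      have : (T3 F 1 1 1 - T3 F 0 0 1 : F) = 1 := by simp [T3]
      rw [this]; exact h1
    · show (- T3 F 0 0 1 - T3 F 0 1 1 : F) ≠ 0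
      have : (- T3 F 0 0 1 - T3 F 0 1 1 : F) = -2 := by simp [T3]
      rw [this, h2]; exact h1
    · show (T3 F 0 0 1 - T3 F 0 1 1 : F) ≠ 0
      have : (T3 F 0 0 1 - T3 F 0 1 1 : F) = -2 := by simp [T3]
      rw [this, h2]; exact h1
  have hprod : ∀ s, ∀ i j : Fin 4, i ≠ j → c s i * c s j = 0 := by
    intro s
    have hxx := hx (v s 0)
    have hyy := hx (v s 1)
    set x := v s 0 with hxdef
    set y := v s 1 with hydef
    have c0 : c s 0 = x * x * x - x * y * y := rfl
    have c1 : c s 1 = y * y * y - x * x * y := rfl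
    have c2 : c s 2 = - (x * x * y) - x * y * y := rfl
    have c3 : c s 3 = x * x * y - x * y * y := rfl
    -- in a field with three elements either x = 0 or x ^ 2 = 1
    have hx' : x = 0 ∨ x ^ 2 = 1 := by
      have : x * (x ^ 2 - 1) = 0 := by linear_combination hxx
      rcases mul_eq_zero.1 this with h | h
      · exact Or.inl h
      · exact Or.inr (by linear_combination h)
    have hy' : y = 0 ∨ y ^ 2 = 1 := by
      have : y * (y ^ 2 - 1) = 0 := by linear_combination hyy
      rcases mul_eq_zero.1 this with h | h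
      · exact Or.inl h
      · exact Or.inr (by linear_combination h)
    intro i j hij
    rcases hx' with hx0 | hx1
    · have z0 : c s 0 = 0 := by rw [c0, hx0]; ring
      have z2 : c s 2 = 0 := by rw [c2, hx0]; ring
      have z3 : c s 3 = 0 := by rw [c3, hx0]; ring
      fin_cases i <;> fin_cases j <;> first | exact absurd rfl hij | simp [z0, z2, z3]
    · rcases hy' with hy0 | hy1
      · have z1 : c s 1 = 0 := by rw [c1, hy0]; ring
        have z2 : c s 2 = 0 := by rw [c2, hy0]; ring
        have z3 : c s 3 = 0 := by rw [c3, hy0]; ring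
        fin_cases i <;> fin_cases j <;> first | exact absurd rfl hij | simp [z1, z2, z3]
      · have z0 : c s 0 = 0 := by rw [c0]; linear_combination x * hx1 - x * hy1
        have z1 : c s 1 = 0 := by rw [c1]; linear_combination y * hy1 - y * hx1
        have z23 : c s 2 * c s 3 = 0 := by
          rw [c2, c3]
          linear_combination (-(x ^ 2 * y ^ 2)) * hx1 + (x ^ 2 * y ^ 2) * hy1
        have z32 : c s 3 * c s 2 = 0 := by rw [mul_comm]; exact z23
        fin_cases i <;> fin_cases j <;>
          first | exact absurd rfl hij | exact z23 | exact z32 | simp [z0, z1]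
  have hex : ∀ i : Fin 4, ∃ s, c s i ≠ 0 := by
    intro i
    by_contra hcon
    push Not at hcon
    apply hne i
    rw [hsum i]
    exact Finset.sum_eq_zero (fun s _ => by rw [hcon s, mul_zero])
  choose g hg using hex
  have hinj : Function.Injective g := by
    intro i j hij
    by_contra hne'
    have h1 := hprod (g i) i j hne'
    rcases mul_eq_zero.1 h1 with h | h
    · exact hg i h
    · rw [hij] at h; exact hg j h
  have := Fintype.card_le_of_injective g hinj
  simpa using this

end Pool.Agent.R678.SR
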