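import Pool.Agent.R678.SR.A

/-!
Symmetric rank of concise alternating tensors of order three in characteristic two.
-/

namespace Pool.Agent.R678.SR

theorem exists_left_inv {F : Type*} [Field F] {I : Type*} [Fintype I] [DecidableEq I] {r : ℕ}
    (M : Matrix (Fin r) I F) (h : ∀ x, M.mulVec x = 0 → x = 0) :
    ∃ L : Matrix I (Fin r) F, L * M = 1 := by
  have hker : LinearMap.ker (Matrix.toLin' M) = ⊥ := by
    rw [LinearMap.ker_eq_bot']
    intro x hx
    exact h x (by simpa [Matrix.toLin'_apply] using hx)
  obtain ⟨g, hg⟩ := LinearMap.exists_leftInverse_of_injective _ hker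
  refine ⟨LinearMap.toMatrix' g, ?_⟩
  have h1 : LinearMap.toMatrix' (g ∘ₗ Matrix.toLin' M) = 1 := by
    rw [hg, LinearMap.toMatrix'_id]
  rw [LinearMap.toMatrix'_comp, LinearMap.toMatrix'_toLin'] at h1
  exact h1

theorem card_le_rank {F : Type*} [Field F] {I : Type*} [Fintype I] [DecidableEq I] {r : ℕ}
    (M : Matrix (Fin r) I F) (L : Matrix I (Fin r) F) (h : L * M = 1) :
    Fintype.card I ≤ M.rank := by
  have h1 := Matrix.rank_mul_le_right L M
  rw [h, Matrix.rank_one] at h1
  exact h1

/-- Sylvester's rank inequality in the form needed here -/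
theorem card_le_of_rank {F : Type*} [Field F] {I : Type*} [Fintype I] [DecidableEq I] {r : ℕ}
    (D N : Matrix (Fin r) I F) (hD : D.rank = Fintype.card I)
    (hN : ∀ x, N.mulVec x = 0 → x = 0) :
    2 * Fintype.card I ≤ r + (D.transpose * N).rank := by
  let f : (I → F) →ₗ[F] (Fin r → F) := N.mulVecLin
  let g : (Fin r → F) →ₗ[F] (I → F) := D.transpose.mulVecLin
  have hf : Function.Injective f := by
    rw [← LinearMap.ker_eq_bot, LinearMap.ker_eq_bot']
    intro x hx
    exact hN x hx
  have e1 : Module.finrank F (LinearMap.range (g ∘ₗ f)) + Module.finrank F (LinearMap.ker (g ∘ₗ f))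
      = Fintype.card I := by
    rw [LinearMap.finrank_range_add_finrank_ker, Module.finrank_fintype_fun_eq_card]
  have e2 : Module.finrank F (LinearMap.range g) + Module.finrank F (LinearMap.ker g) = r := by
    rw [LinearMap.finrank_range_add_finrank_ker, Module.finrank_fintype_fun_eq_card,
      Fintype.card_fin]
  have e3 : Module.finrank F (LinearMap.ker (g ∘ₗ f)) ≤ Module.finrank F (LinearMap.ker g) := by
    let k : LinearMap.ker (g ∘ₗ f) →ₗ[F] LinearMap.ker g :=
      LinearMap.codRestrict _ (f ∘ₗ (LinearMap.ker (g ∘ₗ f)).subtype) (fun x => x.2)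
    have hk : Function.Injective k := by
      intro x y hxy
      have h1 : f x.1 = f y.1 := congrArg Subtype.val hxy
      exact Subtype.ext (hf h1)
    exact LinearMap.finrank_le_finrank_of_injective hk
  have e4 : Module.finrank F (LinearMap.range g) = Fintype.card I := by
    have : D.transpose.rank = Fintype.card I := by rw [Matrix.rank_transpose, hD]
    exact this
  have e5 : (D.transpose * N).rank = Module.finrank F (LinearMap.range (g ∘ₗ f)) := by
    rw [Matrix.rank, Matrix.mulVecLin_mul]
  omega

/-- Over a field of characteristic two, a decomposition of a concise tensor `T` into multiples of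
cubes has at least `2 |I| - rank (T i j j)` terms. -/
theorem two_mul_card_le {F : Type*} [Field F] [CharP F 2] {I : Type*} [Fintype I] [DecidableEq I]
    (T : I → I → I → F)
    (hcon : ∀ x : I → F, (∀ j k, ∑ i, x i * T i j k = 0) → x = 0)
    {r : ℕ} (l : Fin r → F) (v : Fin r → I → F)
    (h : ∀ i j k, T i j k = ∑ s, l s * (v s i * v s j * v s k)) :
    2 * Fintype.card I ≤ r + Matrix.rank (Matrix.of fun i j => T i j j) := by
  let N : Matrix (Fin r) I F := fun s i => v s i
  let D : Matrix (Fin r) I F := fun s i => l s * v s i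
  have hslice : ∀ (x : I → F) (j k : I), ∑ i, x i * T i j k
      = ∑ s, (l s * ∑ i, v s i * x i) * (v s j * v s k) := by
    intro x j k
    simp only [h, Finset.mul_sum, Finset.sum_mul]
    rw [Finset.sum_comm]
    refine Finset.sum_congr rfl (fun s _ => Finset.sum_congr rfl (fun i _ => ?_))
    ring
  have hN : ∀ x, N.mulVec x = 0 → x = 0 := by
    intro x hx
    apply hcon
    intro j k
    rw [hslice]
    apply Finset.sum_eq_zero
    intro s _
    have : ∑ i, v s i * x i = 0 := congrFun hx s
    rw [this]; ring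
  have hD : ∀ x, D.mulVec x = 0 → x = 0 := by
    intro x hx
    apply hcon
    intro j k
    rw [hslice]
    apply Finset.sum_eq_zero
    intro s _
    have h1 : ∑ i, (l s * v s i) * x i = 0 := congrFun hx s
    have h2 : l s * ∑ i, v s i * x i = 0 := by
      rw [← h1, Finset.mul_sum]
      exact Finset.sum_congr rfl (fun i _ => by ring)
    rw [h2]; ring
  obtain ⟨L, hL⟩ := exists_left_inv N hN
  obtain ⟨L', hL'⟩ := exists_left_inv D hD
  have r1 := card_le_rank D L' hL'
  have r1' : D.rank = Fintype.card I := le_antisymm (Matrix.rank_le_card_width D) r1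
  let fr : F →+* F := frobenius F 2
  have hL2 : (L.map fr) * (N.map fr) = 1 := by
    rw [← Matrix.map_mul, hL]
    simp
  have hN2 : ∀ x, (N.map fr).mulVec x = 0 → x = 0 := by
    intro x hx
    have h1 : ((L.map fr) * (N.map fr)).mulVec x = 0 := by
      rw [← Matrix.mulVec_mulVec, hx, Matrix.mulVec_zero]
    rwa [hL2, Matrix.one_mulVec] at h1
  have hz : D.transpose * (N.map fr) = Matrix.of fun i j => T i j j := by
    ext i j
    rw [Matrix.mul_apply]
    simp only [Matrix.transpose_apply, Matrix.map_apply, Matrix.of_apply]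
    rw [h]
    refine Finset.sum_congr rfl (fun s _ => ?_)
    show l s * v s i * (v s j)^2 = _
    ring
  have h3 := card_le_of_rank D (N.map fr) r1' hN2
  rw [hz] at h3
  exact h3

/-- `m` independent copies of the tensor `S` -/
def Sm (F : Type*) [Field F] (m : ℕ) : (Fin m × Fin 3) → (Fin m × Fin 3) → (Fin m × Fin 3) → F :=
  fun a b c => if a.1 = b.1 ∧ b.1 = c.1 then S F a.2 b.2 c.2 else 0

theorem Sm_alt (F : Type*) [Field F] (m : ℕ) : ∀ i j, Sm F m i j j = 0 := by
  intro i j
  simp [Sm, S]

theorem Sm_concise (F : Type*) [Field F] (m : ℕ) (x : Fin m × Fin 3 → F)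
    (hx : ∀ j k, ∑ i, x i * Sm F m i j k = 0) : x = 0 := by
  have key : ∀ (p : Fin m) (j k : Fin 3), ∑ i : Fin 3, x (p, i) * S F i j k = 0 := by
    intro p j k
    have h1 := hx (p, j) (p, k)
    rw [Fintype.sum_prod_type] at h1
    rw [Finset.sum_eq_single p] at h1
    · simpa [Sm] using h1
    · intro q _ hq
      apply Finset.sum_eq_zero
      intro i _
      simp [Sm, hq]
    · intro h; exact absurd (Finset.mem_univ p) h
  funext a
  obtain ⟨p, i⟩ := a
  fin_cases i
  · simpa [Fin.sum_univ_succ, S] using key p 1 2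
  · simpa [Fin.sum_univ_succ, S] using key p 0 2
  · simpa [Fin.sum_univ_succ, S] using key p 0 1

theorem Sm_symm (F : Type*) [Field F] (m : ℕ) : ∀ i j k, Sm F m i j k = Sm F m j i k ∧
    Sm F m i j k = Sm F m i k j := by
  have hS : ∀ i j k : Fin 3, S F i j k = S F j i k ∧ S F i j k = S F i k j := by
    intro i j k
    constructor <;> (unfold S; congr 1; apply propext; tauto)
  intro a b c
  constructor
  · unfold Sm
    rw [(hS a.2 b.2 c.2).1]
    congr 1
    apply propext
    constructor
    · rintro ⟨h1, h2⟩; exact ⟨h1.symm, h1.trans h2⟩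
    · rintro ⟨h1, h2⟩; exact ⟨h1.symm, h1.trans h2⟩
  · unfold Sm
    rw [(hS a.2 b.2 c.2).2]
    congr 1
    apply propext
    constructor
    · rintro ⟨h1, h2⟩; exact ⟨h1.trans h2, h2.symm⟩
    · rintro ⟨h1, h2⟩; exact ⟨h1.trans h2, h2.symm⟩

/-- the three families of vectors of the decomposition of `Sm` -/
def wvec (F : Type*) [Field F] (m : ℕ) (u : Fin 5 → Fin 3 → ℤ) (t : Fin m × Fin 5) :
    Fin m × Fin 3 → F :=
  fun a => if a.1 = t.1 then (u t.2 a.2 : F) else 0

theorem Sm_decomp (F : Type*) [Field F] [CharP F 2] (m : ℕ) : ∀ a b c,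
    Sm F m a b c = ∑ t : Fin m × Fin 5, wvec F m va t a * wvec F m vb t b * wvec F m vc t c := by
  intro a b c
  rw [Fintype.sum_prod_type]
  rw [Finset.sum_eq_single a.1]
  · unfold Sm
    split_ifs with h
    · obtain ⟨h1, h2⟩ := h
      rw [S_decomp]
      refine Finset.sum_congr rfl (fun s _ => ?_)
      simp [wvec, h1, h2]
    · symm
      apply Finset.sum_eq_zero
      intro s _
      by_cases h1 : b.1 = a.1
      · by_cases h2 : c.1 = a.1
        · exact absurd ⟨h1.symm, h1.trans h2.symm⟩ h
        · simp [wvec, h2]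
      · simp [wvec, h1]
  · intro q _ hq
    apply Finset.sum_eq_zero
    intro s _
    have : a.1 ≠ q := fun h => hq h.symm
    simp [wvec, this]
  · intro h; exact absurd (Finset.mem_univ _) h

end Pool.Agent.R678.SR
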